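import Pool.Agent.Lib.MP_630b78_co.NG.Fin
import Pool.Agent.Lib.MP_630b78_co.NG.Sp

/-!
# The transpose comparison at `t = 1`

The ring of symmetric functions over `ℝ` is `MvPolynomial ℕ ℝ`, the variable `X k` is the power sum `p_(k+1)`.  `D0` is the operator `D_0`,
`IsHall q t Q` is the recursion of the text for the operators `Q_(m,n)`, `ff Q σ s a b` is `f^(a,b)` for the seed `f = ∑ s_μ q_μ`, formed
with the operators `σ(n) Q_(m,n)`, and `barCoeff g n ρ` is the coefficient of `s_ρ` in `bar g` for `g` of degree `n`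
(`Pool.Agent.Lib.MP_630b78_co.EH.Defs`).  `qd q t d` is the symmetric function `q_d` of the text (`Pool.Agent.Lib.MP_630b78_co.NG.Defs`).

The signs of the text (`Q_10 = -D_0`, `M Q_mn = [Q_uv, Q_kl]`) give `Q_12(1) = -e_2`; the operators `(-1)^(n+1) Q_mn` have the intended
signs, they are used here.  `q` is a fixed real number, `t` tends to `1`; by the last part the roles of `q` and `t` can be exchanged.
-/

namespace Pool.Agent.Results.MP_630b78_co.AtTEqualsOne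

open MvPolynomial EllHall NG Filter Topology

theorem result (a b d : ℕ) (ha : 1 ≤ a) (hab : a ≤ b) (hc : Nat.Coprime a b) (c : Nat.Partition d → Polynomial ℕ) :
    (∀ ρ : Multiset ℕ, ∃ P : Polynomial ℕ, ∀ q : ℝ, q ≠ 0 → q ≠ 1 →
      ∀ Q : ℝ → ℕ → ℕ → Module.End ℝ (MvPolynomial ℕ ℝ), (∀ t : ℝ, t ≠ 1 → IsHall q t (Q t)) →
      ∀ (s : ℝ → Nat.Partition d → ℝ) (s1 : Nat.Partition d → ℝ), (∀ μ, Tendsto (fun t => s t μ) (𝓝[≠] (1 : ℝ)) (𝓝 (s1 μ))) →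
      ∑ μ : Nat.Partition d, s1 μ • (μ.parts.map (qd q 1)).prod =
        ∑ μ : Nat.Partition d, (((c μ).map (Nat.castRingHom ℝ)).eval q * (-1) ^ (d - Multiset.card μ.parts)) •
          (μ.parts.map (hh ℝ)).prod →
      Tendsto (fun t => barCoeff (ff (Q t) (fun n => (-1 : ℝ) ^ (n + 1)) (s t) a b) (b * d) ρ -
          barCoeff (ff (Q t) (fun n => (-1 : ℝ) ^ (n + 1)) (s t) b a) (a * d) ρ)
        (𝓝[≠] (1 : ℝ)) (𝓝 ((P.map (Nat.castRingHom ℝ)).eval q))) ∧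
    (∀ j : ℕ, ∀ q : ℝ, q ≠ 0 → q ≠ 1 →
      ∀ Q : ℝ → ℕ → ℕ → Module.End ℝ (MvPolynomial ℕ ℝ), (∀ t : ℝ, t ≠ 1 → IsHall q t (Q t)) →
      ∀ (s : ℝ → Nat.Partition d → ℝ) (s1 : Nat.Partition d → ℝ), (∀ μ, Tendsto (fun t => s t μ) (𝓝[≠] (1 : ℝ)) (𝓝 (s1 μ))) →
      ∑ μ : Nat.Partition d, s1 μ • (μ.parts.map (qd q 1)).prod =
        ∑ μ : Nat.Partition d, (((c μ).map (Nat.castRingHom ℝ)).eval q * (-1) ^ (d - Multiset.card μ.parts)) •
          (μ.parts.map (hh ℝ)).prod →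
      Tendsto (fun t => barCoeff (ff (Q t) (fun n => (-1 : ℝ) ^ (n + 1)) (s t) a b) (b * d) (if j = 0 then 0 else {j}) -
          barCoeff (ff (Q t) (fun n => (-1 : ℝ) ^ (n + 1)) (s t) b a) (a * d) (if j = 0 then 0 else {j}))
        (𝓝[≠] (1 : ℝ)) (𝓝 0)) ∧
    (∀ q : ℝ, q ≠ 1 → ∃ Q : ℝ → ℕ → ℕ → Module.End ℝ (MvPolynomial ℕ ℝ), ∀ t : ℝ, t ≠ 1 → IsHall q t (Q t)) ∧
    (∀ q : ℝ, 0 < q → ∃ s1 : Nat.Partition d → ℝ, ∑ μ : Nat.Partition d, s1 μ • (μ.parts.map (qd q 1)).prod =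
      ∑ μ : Nat.Partition d, (((c μ).map (Nat.castRingHom ℝ)).eval q * (-1) ^ (d - Multiset.card μ.parts)) •
        (μ.parts.map (hh ℝ)).prod) ∧
    (∀ (q t : ℝ) (Q : ℕ → ℕ → Module.End ℝ (MvPolynomial ℕ ℝ)), IsHall q t Q → IsHall t q Q) := by
  refine ⟨fun ρ => main_t a b d ha hab hc c ρ, fun j q h0 h1 Q hQ s s1 hs h => main_t_row a b d ha hab hc c j q h0 h1 Q hQ s s1 hs h,
    fun q hq => ?_, fun q hq => exists_seed q hq d _, fun q t Q h => hall_symm h⟩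
  have h : ∀ t : ℝ, ∃ Q : ℕ → ℕ → Module.End ℝ (MvPolynomial ℕ ℝ), t ≠ 1 → IsHall q t Q := by
    intro t
    by_cases ht : t = 1
    · exact ⟨fun _ _ => 0, fun h => absurd ht h⟩
    · obtain ⟨Q, hQ⟩ := exists_hall (q := q) (t := t) (mul_ne_zero (sub_ne_zero.2 (Ne.symm hq)) (sub_ne_zero.2 (Ne.symm ht)))
      exact ⟨Q, fun _ => hQ⟩
  choose Q hQ using h
  exact ⟨Q, hQ⟩

end Pool.Agent.Results.MP_630b78_co.AtTEqualsOne
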