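import Pool.Agent.Lib.MP_630b78_co.QO.Main

/-!
# The transpose comparison on the curve `q t = 1`

`q` is a positive real number different from `1` and `t = q⁻¹`; the operators act on `MvPolynomial ℕ ℝ`, the ring of symmetric
functions over `ℝ`, where the variable `X k` is the power sum `p_(k+1)`.  The definitions `IsHall`, `ff`, `barCoeff` are in
`Pool.Agent.Lib.MP_630b78_co.EH.Defs`, the seed `q_d` is `seed d` (coordinates in the basis `q_μ`).
The signs are the corrected ones, `(-1)^(n+1) Q_(m,n)`.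
-/

namespace Pool.Agent.Results.MP_630b78_co.CurveQTOne

open EllHall

theorem ff_scale (Q : ℕ → ℕ → Module.End ℝ (MvPolynomial ℕ ℝ)) (σ : ℕ → ℝ) (s : ℝ) (d a b : ℕ) :
    ff Q σ (fun μ => s * seed d μ) a b = s • ff Q σ (seed d) a b := by
  unfold ff
  rw [Finset.smul_sum]
  exact Finset.sum_congr rfl fun μ _ => mul_smul _ _ _

theorem result (q : ℝ) (h0 : 0 < q) (h1 : q ≠ 1) :
    (∃ Q : ℕ → ℕ → Module.End ℝ (MvPolynomial ℕ ℝ), IsHall q q⁻¹ Q) ∧
    ∀ Q : ℕ → ℕ → Module.End ℝ (MvPolynomial ℕ ℝ), IsHall q q⁻¹ Q →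
      ∀ a b d : ℕ, 1 ≤ a → a ≤ b → Nat.Coprime a b → 1 ≤ d → ∀ s : ℝ, 0 ≤ s →
        (∀ ρ : Multiset ℕ,
          0 ≤ barCoeff (ff Q (fun n => (-1) ^ (n + 1)) (fun μ => s * seed d μ) a b) (b * d) ρ -
            barCoeff (ff Q (fun n => (-1) ^ (n + 1)) (fun μ => s * seed d μ) b a) (a * d) ρ) ∧
        ∀ j : ℕ,
          barCoeff (ff Q (fun n => (-1) ^ (n + 1)) (fun μ => s * seed d μ) a b) (b * d) (if j = 0 then 0 else {j}) =
            barCoeff (ff Q (fun n => (-1) ^ (n + 1)) (fun μ => s * seed d μ) b a) (a * d) (if j = 0 then 0 else {j}) := by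
  refine ⟨curve_exists h0 h1, fun Q hQ a b d ha hab hc hd s hs => ⟨fun ρ => ?_, fun j => ?_⟩⟩
  · rw [ff_scale, ff_scale, barCoeff_smul, barCoeff_smul, ← mul_sub]
    exact mul_nonneg hs (sub_nonneg.2 (curve_le h0 h1 hQ a b d ha hab hc hd ρ))
  · rw [ff_scale, ff_scale, barCoeff_smul, barCoeff_smul, curve_row h0 h1 hQ a b d ha hab hc hd j]

end Pool.Agent.Results.MP_630b78_co.CurveQTOne
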