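import Pool.Agent.Lib.MP_630b78_co.EH.Main

/-!
# The transpose comparison for `a d ≤ 3`

`MvPolynomial ℕ QT` is the ring of symmetric functions over `QT = ℚ(q,t)`, the variable `X k` is the power sum `p_(k+1)`.
The definitions (`IsHall`, `ff`, `PosSeed`, `barCoeff`, `IsNN`) are in `Pool.Agent.Lib.MP_630b78_co.EH.Defs`.

The signs of the text (`Q_10 = -D_0`, `M Q_mn = [Q_uv, Q_kl]`) give `Q_12(1) = -e_2`; the operators `(-1)^(n+1) Q_mn` have the
intended signs.  The comparison is proved for both (`σ = 1` and `σ n = (-1)^(n+1)`).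
-/

namespace Pool.Agent.Results.MP_630b78_co.DegreeAtMostThree

open EllHall

theorem result :
    (∃ Q : ℕ → ℕ → Module.End QT (MvPolynomial ℕ QT), IsHall qq tt Q) ∧
    ∀ Q : ℕ → ℕ → Module.End QT (MvPolynomial ℕ QT), IsHall qq tt Q →
      ∀ a b d : ℕ, 1 ≤ a → a ≤ b → Nat.Coprime a b → 1 ≤ d → a * d ≤ 3 → ∀ c : Nat.Partition d → QT,
        (∀ σ : ℕ → QT, (σ = (fun _ => 1) ∨ σ = fun n => (-1) ^ (n + 1)) → PosSeed qq tt Q σ c → ∀ ρ : Multiset ℕ,
          IsNN qq tt (barCoeff (ff Q σ c a b) (b * d) ρ - barCoeff (ff Q σ c b a) (a * d) ρ)) ∧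
        (∀ j : ℕ, barCoeff (ff Q (fun n => (-1) ^ (n + 1)) c a b) (b * d) (if j = 0 then 0 else {j}) =
          barCoeff (ff Q (fun n => (-1) ^ (n + 1)) c b a) (a * d) (if j = 0 then 0 else {j})) := by
  refine ⟨exists_hall hM_QT, ?_⟩
  intro Q hQ a b d ha hab hc hd had c
  refine ⟨fun σ hσ hP ρ => comparison hQ σ hσ a b d ha hd hab hc had c hP ρ, fun j => ?_⟩
  rw [ff_corrected, ff_corrected]
  exact row_eq hM_QT q_ne_t q2_ne_t q_ne_t2 q_ne_zero t_ne_zero hQ a b d ha hd hab hc had c j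

end Pool.Agent.Results.MP_630b78_co.DegreeAtMostThree
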