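import Pool.Agent.Lib.MP_630b78_co.SD.Ident
import Pool.Agent.Lib.MP_630b78_co.SD.OneB

/-!
# The seeds of degree two

`MvPolynomial ℕ QT` is the ring of symmetric functions over `QT = ℚ(q,t)`, the variable `X k` is the power sum `p_(k+1)`.  `IsHall q t Q`
is the recursion of the text for the operators `Q_(m,n)`, `ff Q σ c a b` is `f^(a,b)` for the seed `f = ∑ c_μ q_μ`, formed with the operators
`σ(n) Q_(m,n)`, `PosSeed` says that `f` gives rise to Schur-positive operators, `IsNN q t x` that `x` is in `ℕ[q,t]`, and `barCoeff g n ρ` is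
the coefficient of `s_ρ` in `bar g` for `g` of degree `n` (`Pool.Agent.Lib.MP_630b78_co.EH.Defs`).

The signs of the text (`Q_10 = -D_0`, `M Q_mn = [Q_uv, Q_kl]`) give `Q_12(1) = -e_2`; the operators `(-1)^(n+1) Q_mn` have the intended
signs.  Everything is proved for both (`σ = 1`, `s = -1` and `σ n = (-1)^(n+1)`, `s = 1`; `s` changes the sign of the coordinate of `q_2`).
The three seeds `gA s`, `gB s`, `gC s` are in `Pool.Agent.Lib.MP_630b78_co.SD.Defs`; for `s = 1` they are the symmetric functions `sf` in the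
second part of the theorem.
-/

namespace Pool.Agent.Results.MP_630b78_co.DegreeTwoSeeds

open MvPolynomial EllHall SD

theorem result :
    (∃ Q : ℕ → ℕ → Module.End QT (MvPolynomial ℕ QT), IsHall qq tt Q) ∧
    (sf (gA 1) = schur QT [1, 1] + qq⁻¹ • schur QT [2] ∧ sf (gB 1) = schur QT [1, 1] + tt⁻¹ • schur QT [2] ∧
      sf (gC 1) = (-(qq * tt)⁻¹) • schur QT [2]) ∧
    ∀ Q : ℕ → ℕ → Module.End QT (MvPolynomial ℕ QT), IsHall qq tt Q → ∀ (σ : ℕ → QT) (s : QT),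
      (σ = (fun _ => 1) ∧ s = -1) ∨ (σ = (fun n => (-1) ^ (n + 1)) ∧ s = 1) → ∀ c : Nat.Partition 2 → QT,
      (KPos Q σ c ↔ ∃ A B C : QT, IsNN qq tt A ∧ IsNN qq tt B ∧ IsNN qq tt C ∧ c = A • gA s + B • gB s + C • gC s) ∧
      (KPos Q σ c → ∀ a b : ℕ, 1 ≤ a → a ≤ b → Nat.Coprime a b →
        ((∀ ρ : Multiset ℕ, IsNN qq tt (Dl Q σ (gA s) a b ρ)) → (∀ ρ : Multiset ℕ, IsNN qq tt (Dl Q σ (gC s) a b ρ)) →
          ∀ ρ : Multiset ℕ, IsNN qq tt (Dl Q σ c a b ρ)) ∧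
        ∀ (ρ : Multiset ℕ) (N : MvPolynomial (Fin 2) ℤ), Dl Q σ c a b ρ = N.eval₂ (Int.castRingHom QT) ![qq, tt] →
          ∀ x : ℝ, 1 ≤ x → 0 ≤ N.eval₂ (Int.castRingHom ℝ) ![x, 1] ∧ 0 ≤ N.eval₂ (Int.castRingHom ℝ) ![1, x]) ∧
      (PosSeed qq tt Q σ c → KPos Q σ c ∧ ∀ a b : ℕ, 1 ≤ a → 1 ≤ b → Nat.Coprime a b → ∀ ρ : Multiset ℕ,
        ∃ N : MvPolynomial (Fin 2) ℤ, Dl Q σ c a b ρ = N.eval₂ (Int.castRingHom QT) ![qq, tt]) := by
  refine ⟨exists_hall hM_QT, ⟨sf_A, sf_B, sf_C⟩, ?_⟩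
  intro Q hQ σ s h c
  refine ⟨classify h hQ c, fun hc a b ha hab hcop => ⟨fun hA hC ρ => reduce_two h hQ c hc a b ha (ha.trans hab) hA hC ρ,
    fun ρ N hN x hx => ⟨half h hQ c hc a b ha hab hcop ρ N hN x hx, half' h hQ c hc a b ha hab hcop ρ N hN x hx⟩⟩, fun hc => ?_⟩
  exact ⟨fun k hk μ => hc k 1 hk le_rfl (Nat.coprime_one_right k) μ,
    fun a b ha hb hcop ρ => exists_poly c hc a b ha hb hcop ρ⟩

end Pool.Agent.Results.MP_630b78_co.DegreeTwoSeeds
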